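import Pool.Agent.Work.MP_b5407d_lp.Interface

/-! Block SW0: the wall function (helper83). -/

set_option autoImplicit false
open MeasureTheory Real Filter Topology
open scoped ContDiff

namespace Pool.Agent.Work.LPBM.helper83

theorem piece {f f' : ℝ → ℝ} (hf : ∀ s, HasDerivAt f (f' s) s) (h0 : f 0 = 0) (h1 : f' 0 = 0)
    (s : ℝ) :
    HasDerivAt (fun s => if s ≤ 0 then 0 else f s) (if s ≤ 0 then 0 else f' s) s := by
  rcases lt_trichotomy s 0 with hs | hs | hs
  · rw [if_pos hs.le]
    refine (hasDerivAt_const s (0 : ℝ)).congr_of_eventuallyEq ?_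
    filter_upwards [Iio_mem_nhds hs] with x hx
    exact if_pos (le_of_lt hx)
  · subst hs
    rw [if_pos le_rfl]
    have h2 : HasDerivWithinAt (fun s : ℝ => if s ≤ 0 then 0 else f s) 0 (Set.Iic 0) 0 := by
      refine (hasDerivWithinAt_const (0 : ℝ) (Set.Iic 0) (0 : ℝ)).congr ?_ ?_
      · intro x hx
        exact if_pos hx
      · exact if_pos le_rfl
    have h3 : HasDerivWithinAt (fun s : ℝ => if s ≤ 0 then 0 else f s) 0 (Set.Ici 0) 0 := by
      have h4 : HasDerivWithinAt f 0 (Set.Ici 0) 0 := by
        have := (hf 0).hasDerivWithinAt (s := Set.Ici 0)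
        rwa [h1] at this
      refine h4.congr ?_ ?_
      · intro x hx
        by_cases hx0 : x ≤ 0
        · have : x = 0 := le_antisymm hx0 hx
          subst this
          rw [if_pos le_rfl, h0]
        · exact if_neg hx0
      · rw [if_pos le_rfl, h0]
    have h5 := h2.union h3
    rw [Set.Iic_union_Ici] at h5
    exact hasDerivWithinAt_univ.mp h5
  · rw [if_neg (not_le.mpr hs)]
    refine (hf s).congr_of_eventuallyEq ?_
    filter_upwards [Ioi_mem_nhds hs] with x hx
    exact if_neg (not_le.mpr hx)

theorem hasDerivAt_G0 (s : ℝ) : HasDerivAt G0 (G1 s) s := by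
  have h := piece (f := fun s => exp s - 1 - s - s ^ 2 / 2) (f' := fun s => exp s - 1 - s)
    (fun s => by
      have h1 := (((Real.hasDerivAt_exp s).sub_const 1).sub (hasDerivAt_id s)).sub
        ((hasDerivAt_pow 2 s).div_const 2)
      have e : exp s - 1 - s = exp s - 1 - ((2 : ℕ) : ℝ) * s ^ (2 - 1) / 2 := by
        norm_num
      rw [e]
      exact h1) (by simp) (by simp) s
  exact h

theorem hasDerivAt_G1 (s : ℝ) : HasDerivAt G1 (G2 s) s := by
  have h := piece (f := fun s => exp s - 1 - s) (f' := fun s => exp s - 1)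
    (fun s => ((Real.hasDerivAt_exp s).sub_const 1).sub (hasDerivAt_id s)) (by simp) (by simp) s
  exact h

theorem continuous_G2 : Continuous G2 := by
  have : G2 = fun s : ℝ => if s ≤ 0 then 0 else exp s - 1 := rfl
  rw [this]
  refine Continuous.if_le continuous_const (by fun_prop) continuous_id continuous_const ?_
  intro x hx
  have hx' : x = 0 := hx
  rw [hx']; simp

theorem G1_nonneg (s : ℝ) : 0 ≤ G1 s := by
  unfold G1
  split_ifs with h
  · exact le_rfl
  · have := Real.add_one_le_exp s
    linarith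

theorem G2_nonneg (s : ℝ) : 0 ≤ G2 s := by
  unfold G2
  split_ifs with h
  · exact le_rfl
  · have := Real.add_one_le_exp s
    push Not at h
    linarith

theorem cubic_le_exp {s : ℝ} (hs : 0 ≤ s) : 1 + s + s ^ 2 / 2 + s ^ 3 / 6 ≤ exp s := by
  have h := Real.sum_le_exp_of_nonneg hs 4
  simp only [Finset.sum_range_succ, Finset.sum_range_zero, Nat.factorial] at h
  norm_num at h
  linarith

theorem G0_lower {s : ℝ} (hs : 0 ≤ s) : s ^ 3 / 6 ≤ G0 s := by
  unfold G0
  split_ifs with h
  · have : s = 0 := le_antisymm h hs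
    subst this; simp
  · have := cubic_le_exp hs
    linarith

theorem G0_nonneg (s : ℝ) : 0 ≤ G0 s := by
  by_cases h : s ≤ 0
  · unfold G0; rw [if_pos h]
  · push Not at h
    exact le_trans (by positivity) (G0_lower h.le)

theorem stmt_SW0 : Stmt_SW0 := by
  have d0 : Differentiable ℝ G0 := fun s => (hasDerivAt_G0 s).differentiableAt
  have d1 : Differentiable ℝ G1 := fun s => (hasDerivAt_G1 s).differentiableAt
  have e0 : deriv G0 = G1 := funext fun s => (hasDerivAt_G0 s).deriv
  have e1 : deriv G1 = G2 := funext fun s => (hasDerivAt_G1 s).deriv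
  have c1 : ContDiff ℝ 1 G1 := by
    rw [contDiff_one_iff_deriv, e1]
    exact ⟨d1, continuous_G2⟩
  have c0 : ContDiff ℝ 2 G0 := by
    have : (2 : WithTop ℕ∞) = 1 + 1 := by norm_num
    rw [this, contDiff_succ_iff_deriv, e0]
    exact ⟨d0, by simp, c1⟩
  have m1 : Monotone G1 := monotone_of_deriv_nonneg d1 (by
    intro s; rw [e1]; exact G2_nonneg s)
  have m0 : Monotone G0 := monotone_of_deriv_nonneg d0 (by
    intro s; rw [e0]; exact G1_nonneg s)
  refine ⟨hasDerivAt_G0, hasDerivAt_G1, continuous_G2, c0, c1, G0_nonneg, G1_nonneg, ?_, ?_,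
    fun s hs => G0_lower hs, ?_, m0, m1, ?_, ?_⟩
  · intro s
    unfold G1 G2
    split_ifs with h
    · exact le_rfl
    · push Not at h
      linarith
  · intro s hs
    unfold G1
    split_ifs with h
    · have : s = 0 := le_antisymm h hs
      subst this; simp
    · have := Real.quadratic_le_exp_of_nonneg hs
      linarith
  · exact Monotone.convexOn_univ_of_deriv d0 (by rw [e0]; exact m1)
  · intro s t hst
    unfold G2
    split_ifs with h1 h2 h2
    · exact le_rfl
    · push Not at h2
      have := Real.add_one_le_exp t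
      linarith
    · exact absurd (hst.trans h2) h1
    · have := Real.exp_le_exp.mpr hst
      linarith
  · intro m δ hδ
    refine ⟨exp (m * (1 + 6 * m / δ)), fun s => ?_⟩
    have hm0 : (0 : ℝ) ≤ m := Nat.cast_nonneg m
    have hs0 : 0 ≤ 6 * (m : ℝ) / δ := by positivity
    by_cases h : s ≤ 0
    · have e2 : G2 s = 0 := by unfold G2; rw [if_pos h]
      have e3 : G0 s = 0 := by unfold G0; rw [if_pos h]
      rw [e2, e3]
      simp only [add_zero, one_pow, mul_zero, neg_zero, exp_zero, mul_one]
      exact Real.one_le_exp (by positivity)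
    · have hs : 0 < s := not_le.mp h
      have e2 : 1 + G2 s = exp s := by unfold G2; rw [if_neg h]; ring
      rw [e2, ← Real.exp_nat_mul, ← Real.exp_add]
      refine Real.exp_le_exp.mpr ?_
      have h3 := G0_lower hs.le
      have h4 : (m : ℝ) * s - δ * (s ^ 3 / 6) ≤ m * (1 + 6 * m / δ) := by
        by_cases hss : s ≤ 1 + 6 * m / δ
        · have h5 : (m : ℝ) * s ≤ m * (1 + 6 * m / δ) := mul_le_mul_of_nonneg_left hss hm0
          have h6 : 0 ≤ δ * (s ^ 3 / 6) := by positivity
          linarith
        · push Not at hss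
          have h5 : 6 * (m : ℝ) / δ ≤ s ^ 2 := by nlinarith
          rw [div_le_iff₀ hδ] at h5
          have h6 : (m : ℝ) * s ≤ δ * (s ^ 3 / 6) := by nlinarith
          have h7 : 0 ≤ (m : ℝ) * (1 + 6 * m / δ) := by positivity
          linarith
      have h5 : δ * (s ^ 3 / 6) ≤ δ * G0 s := mul_le_mul_of_nonneg_left h3 hδ.le
      linarith

end Pool.Agent.Work.LPBM.helper83
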