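import Pool.Agent.Work.MP_b5407d_lp.Interface

/-! Block TAIL: outside `(41/40) P` the function `S` is large (helper83). -/

set_option autoImplicit false
open MeasureTheory Real Filter Topology
open scoped ContDiff

namespace Pool.Agent.Work.LPBM.helper83

theorem stmt_TAIL (hSW0 : Stmt_SW0) : Stmt_TAIL := by
  obtain ⟨-, -, -, -, -, -, hG1, -, hG1b, -, -, -, -, -, -⟩ := hSW0
  intro n ι _ k θ h l hm R hn hhm hR hh hk hPR hPl
  have hn1 : (1 : ℝ) ≤ n := by exact_mod_cast hn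
  have hk0 : 0 < k := by
    by_contra hc
    push Not at hc
    have : k * hm ≤ 0 := mul_nonpos_of_nonpos_of_nonneg hc hhm.le
    linarith
  have hh0 : ∀ i, 0 < h i := fun i => lt_of_lt_of_le hhm (hh i)
  have hR2 : 0 < 13 / 10 * R ^ 2 := by positivity
  constructor
  · intro x hx
    have hy : (40 / 41 : ℝ) • x ∈ Pset θ h := by
      intro i
      rw [inner_smul_right]
      have := hx i
      linarith
    have h1 := hPR _ hy
    have h2 := hPl _ hy
    rw [norm_smul] at h1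
    rw [inner_smul_right] at h2
    have h3 : ‖(40 / 41 : ℝ)‖ = 40 / 41 := by
      rw [Real.norm_eq_abs, abs_of_pos (by norm_num)]
    rw [h3] at h1
    have h4 : ‖x‖ ≤ 41 / 40 * R := by linarith
    have h5 : ‖x‖ ^ 2 ≤ (41 / 40 * R) ^ 2 := pow_le_pow_left₀ (norm_nonneg x) h4 2
    have h6 : ‖x‖ ^ 2 / (13 / 10 * R ^ 2) ≤ 81 / 100 := by
      rw [div_le_iff₀ hR2]
      nlinarith
    linarith
  · intro x hx
    push Not at hx
    obtain ⟨i1, hi1⟩ := hx
    obtain ⟨i0, -, hmax⟩ := Finset.exists_max_image Finset.univ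
      (fun i => inner ℝ (θ i) x / h i) ⟨i1, Finset.mem_univ i1⟩
    set q : ℝ := inner ℝ (θ i0) x / h i0 with hq
    have hq1 : 41 / 40 < q := by
      refine lt_of_lt_of_le ?_ (hmax i1 (Finset.mem_univ i1))
      rw [lt_div_iff₀ (hh0 i1)]
      exact hi1
    have hq0 : 0 < q := by linarith
    have hle : ∀ i, inner ℝ (θ i) x ≤ q * h i := by
      intro i
      have := hmax i (Finset.mem_univ i)
      rwa [div_le_iff₀ (hh0 i)] at this
    have heq : inner ℝ (θ i0) x = q * h i0 := by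
      rw [hq, div_mul_cancel₀ _ (hh0 i0).ne']
    have hy : (1 / q) • x ∈ Pset θ h := by
      intro i
      rw [inner_smul_right, one_div, inv_mul_le_iff₀ hq0]
      exact hle i
    have h1 := hPR _ hy
    have h2 := hPl _ hy
    rw [norm_smul, Real.norm_eq_abs, abs_of_pos (by positivity : 0 < 1 / q), one_div,
      inv_mul_le_iff₀ hq0] at h1
    rw [inner_smul_right, one_div, inv_mul_le_iff₀ hq0] at h2
    -- lower bound for `S`
    have hnn : ∀ i, 0 ≤ k * G1 (k * (inner ℝ (θ i) x - h i)) * inner ℝ (θ i) x := by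
      intro i
      by_cases hi : inner ℝ (θ i) x - h i ≤ 0
      · have h3 : G1 (k * (inner ℝ (θ i) x - h i)) = 0 := by
          unfold G1
          rw [if_pos (mul_nonpos_of_nonneg_of_nonpos hk0.le hi)]
        rw [h3]; simp
      · push Not at hi
        have h3 : 0 < inner ℝ (θ i) x := by
          have := hh0 i
          linarith
        exact mul_nonneg (mul_nonneg hk0.le (hG1 _)) h3.le
    have hS : k * G1 (k * (inner ℝ (θ i0) x - h i0)) * inner ℝ (θ i0) x ≤ Sx k θ h x :=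
      Finset.single_le_sum (f := fun i => k * G1 (k * (inner ℝ (θ i) x - h i)) * inner ℝ (θ i) x)
        (fun i _ => hnn i) (Finset.mem_univ i0)
    have harg : k * (inner ℝ (θ i0) x - h i0) = (k * h i0) * (q - 1) := by
      rw [heq]; ring
    have hkh : 1000 * (n : ℝ) ≤ k * h i0 :=
      hk.trans (mul_le_mul_of_nonneg_left (hh i0) hk0.le)
    have hkh0 : 0 < k * h i0 := by linarith
    have h3 : ((k * h i0) * (q - 1)) ^ 2 / 2 ≤ G1 (k * (inner ℝ (θ i0) x - h i0)) := by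
      rw [harg]
      exact hG1b _ (mul_nonneg hkh0.le (by linarith))
    have h4 : ((k * h i0) * (q - 1)) ^ 2 / 2 * ((k * h i0) * q) ≤ Sx k θ h x := by
      refine le_trans ?_ hS
      have e1 : k * G1 (k * (inner ℝ (θ i0) x - h i0)) * inner ℝ (θ i0) x =
          G1 (k * (inner ℝ (θ i0) x - h i0)) * ((k * h i0) * q) := by
        rw [heq]; ring
      rw [e1]
      exact mul_le_mul_of_nonneg_right h3 (by positivity)
    have hq41 : q / 41 ≤ q - 1 := by linarith
    have h5 : (1000 * (n : ℝ)) ^ 3 * (q ^ 3 / 3362) ≤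
        ((k * h i0) * (q - 1)) ^ 2 / 2 * ((k * h i0) * q) := by
      have e2 : ((k * h i0) * (q - 1)) ^ 2 / 2 * ((k * h i0) * q) =
          (k * h i0) ^ 3 * ((q - 1) ^ 2 * q / 2) := by ring
      rw [e2]
      have h6 : (1000 * (n : ℝ)) ^ 3 ≤ (k * h i0) ^ 3 := pow_le_pow_left₀ (by positivity) hkh 3
      have h7 : q ^ 3 / 3362 ≤ (q - 1) ^ 2 * q / 2 := by
        have h8 : (q / 41) ^ 2 ≤ (q - 1) ^ 2 := pow_le_pow_left₀ (by positivity) hq41 2
        have h9 : (q / 41) ^ 2 * q ≤ (q - 1) ^ 2 * q := mul_le_mul_of_nonneg_right h8 hq0.le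
        have e3 : q ^ 3 / 3362 = (q / 41) ^ 2 * q / 2 := by ring
        rw [e3]
        linarith
      exact mul_le_mul h6 h7 (by positivity) (by positivity)
    have h10 : ‖x‖ ^ 2 / (13 / 10 * R ^ 2) ≤ q ^ 2 := by
      rw [div_le_iff₀ hR2]
      have h11 : ‖x‖ ^ 2 ≤ (q * R) ^ 2 := pow_le_pow_left₀ (norm_nonneg x) h1 2
      have h12 : 0 ≤ q ^ 2 * R ^ 2 := by positivity
      nlinarith
    have hq2 : 1 ≤ q := by linarith
    have hq3 : 1 ≤ q ^ 2 := one_le_pow₀ hq2
    have hqq : q ≤ q ^ 2 := by nlinarith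
    have hn0 : (0 : ℝ) < n := by linarith
    have h13 : (n : ℝ) + inner ℝ l x + ‖x‖ ^ 2 / (13 / 10 * R ^ 2) + 1000 * n ≤
        1003 * (n * q ^ 2) := by
      have a1 : (n : ℝ) ≤ n * q ^ 2 := le_mul_of_one_le_right hn0.le hq3
      have a2 : q * n ≤ n * q ^ 2 := by
        rw [mul_comm]; exact mul_le_mul_of_nonneg_left hqq hn0.le
      have a3 : q ^ 2 ≤ n * q ^ 2 := le_mul_of_one_le_left (by positivity) hn1
      linarith
    have h14 : 20060 * (n * q ^ 2) ≤ (1000 * (n : ℝ)) ^ 3 * (q ^ 3 / 3362) := by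
      have e4 : (1000 * (n : ℝ)) ^ 3 * (q ^ 3 / 3362) =
          (10 ^ 9 / 3362) * (n * q ^ 2) * (n ^ 2 * q) := by ring
      rw [e4]
      have a1 : (1 : ℝ) ≤ n ^ 2 * q := one_le_mul_of_one_le_of_one_le (one_le_pow₀ hn1) hq2
      have a2 : 0 < n * q ^ 2 := by positivity
      have a3 : (10 ^ 9 / 3362 : ℝ) * (n * q ^ 2) * 1 ≤
          (10 ^ 9 / 3362) * (n * q ^ 2) * (n ^ 2 * q) :=
        mul_le_mul_of_nonneg_left a1 (by positivity)
      have a4 : (20060 : ℝ) ≤ 10 ^ 9 / 3362 := by norm_num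
      have a5 : 20060 * (n * q ^ 2) ≤ (10 ^ 9 / 3362 : ℝ) * (n * q ^ 2) :=
        mul_le_mul_of_nonneg_right a4 a2.le
      linarith
    calc 20 * ((n : ℝ) + inner ℝ l x + ‖x‖ ^ 2 / (13 / 10 * R ^ 2) + 1000 * n)
        ≤ 20 * (1003 * (n * q ^ 2)) := mul_le_mul_of_nonneg_left h13 (by norm_num)
      _ = 20060 * (n * q ^ 2) := by ring
      _ ≤ (1000 * (n : ℝ)) ^ 3 * (q ^ 3 / 3362) := h14
      _ ≤ _ := h5
      _ ≤ _ := h4

end Pool.Agent.Work.LPBM.helper83
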