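import Pool.Agent.Work.MP_b5407d_lp.Interface

/-! Block TLT: a centring tilt satisfies `l . x ≤ n` on the polytope (helper83). -/

set_option autoImplicit false
open MeasureTheory Real Filter Topology
open scoped ContDiff

namespace Pool.Agent.Work.LPBM.helper83

section
variable {n : ℕ} {ι : Type} [Fintype ι]

theorem W_eq (k : ℝ) (θ : ι → E n) (h : ι → ℝ) (l x : E n) :
    W k θ h l x = exp (-(∑ i, G0 (k * (inner ℝ (θ i) x - h i))) + inner ℝ l x) := by
  unfold W wt Vpot Upot
  congr 1
  ring

theorem W_pos (k : ℝ) (θ : ι → E n) (h : ι → ℝ) (l x : E n) : 0 < W k θ h l x := by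
  rw [W_eq]; exact exp_pos _

theorem W_cont (hG0 : Continuous G0) (k : ℝ) (θ : ι → E n) (h : ι → ℝ) (l : E n) :
    Continuous (W k θ h l) := by
  have hi : ∀ v : E n, Continuous (fun y : E n => (inner ℝ v y : ℝ)) := fun v =>
    (innerSL ℝ v).continuous
  have e : W k θ h l = fun x => exp (-(∑ i, G0 (k * (inner ℝ (θ i) x - h i))) + inner ℝ l x) :=
    funext fun x => W_eq k θ h l x
  rw [e]
  refine Real.continuous_exp.comp (Continuous.add (Continuous.neg ?_) (hi l))
  refine continuous_finsetSum _ fun i _ => ?_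
  exact hG0.comp (continuous_const.mul ((hi (θ i)).sub continuous_const))

/-- integrability of `W` and of `|x| W` -/
theorem W_int (hINT : Stmt_INT) (hG0 : Continuous G0) (k : ℝ) (θ : ι → E n) (h : ι → ℝ) (l : E n)
    (hk : 0 < k) (hS : Span θ) :
    Integrable (W k θ h l) ∧ Integrable (fun x => ‖x‖ * W k θ h l x) := by
  set H : ℝ := ∑ i, |h i| with hH
  set A : ℝ := ‖l‖ + 1 with hA
  obtain ⟨B, hB, hle⟩ := hINT n ι θ hS k k H A hk 0
  have hi : ∀ i, |h i| ≤ H := fun i =>
    Finset.single_le_sum (f := fun i => |h i|) (fun i _ => abs_nonneg _) (Finset.mem_univ i)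
  have h1 : ∀ x, exp (A * ‖x‖) * W k θ h l x ≤ B x := by
    intro x
    have := hle k h l le_rfl le_rfl hi (by rw [hA]; linarith) x
    rwa [pow_zero, mul_one] at this
  have hA1 : 1 ≤ A := by rw [hA]; linarith [norm_nonneg l]
  have hW := W_cont hG0 k θ h l
  constructor
  · refine Integrable.mono' hB hW.aestronglyMeasurable (Eventually.of_forall fun x => ?_)
    rw [Real.norm_eq_abs, abs_of_pos (W_pos k θ h l x)]
    refine le_trans ?_ (h1 x)
    refine le_mul_of_one_le_left (W_pos k θ h l x).le (Real.one_le_exp ?_)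
    exact mul_nonneg (by linarith) (norm_nonneg x)
  · refine Integrable.mono' hB (continuous_norm.mul hW).aestronglyMeasurable
      (Eventually.of_forall fun x => ?_)
    rw [Real.norm_eq_abs, abs_of_nonneg (mul_nonneg (norm_nonneg x) (W_pos k θ h l x).le)]
    refine le_trans ?_ (h1 x)
    refine mul_le_mul_of_nonneg_right ?_ (W_pos k θ h l x).le
    have h2 : ‖x‖ + 1 ≤ exp ‖x‖ := Real.add_one_le_exp _
    have h3 : exp ‖x‖ ≤ exp (A * ‖x‖) :=
      Real.exp_le_exp.mpr (le_mul_of_one_le_left (norm_nonneg x) hA1)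
    linarith

theorem coord_int (hINT : Stmt_INT) (hG0 : Continuous G0) (k : ℝ) (θ : ι → E n) (h : ι → ℝ)
    (l : E n) (hk : 0 < k) (hS : Span θ) (j : Fin n) :
    Integrable (fun x : E n => x j * W k θ h l x) := by
  refine Integrable.mono' (W_int hINT hG0 k θ h l hk hS).2 ?_ (Eventually.of_forall fun x => ?_)
  · have h1 : Continuous (fun x : E n => x j) := by fun_prop
    exact (h1.mul (W_cont hG0 k θ h l)).aestronglyMeasurable
  · rw [norm_mul, Real.norm_eq_abs (W k θ h l x), abs_of_pos (W_pos k θ h l x)]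
    exact mul_le_mul_of_nonneg_right (PiLp.norm_apply_le x j) (W_pos k θ h l x).le

end

theorem stmt_TLT (hSW0 : Stmt_SW0) (hINT : Stmt_INT) : Stmt_TLT := by
  obtain ⟨hd0, -, -, -, -, hG0n, -, -, -, -, hconv, -⟩ := hSW0
  have hG0 : Continuous G0 :=
    continuous_iff_continuousAt.mpr fun s => (hd0 s).continuousAt
  intro n ι _ k θ h l hk hS hh hcen z hz
  by_contra hcon
  push Not at hcon
  set b : ℝ := inner ℝ l z with hb
  have hn0 : (0 : ℝ) ≤ n := Nat.cast_nonneg n
  have hb0 : 0 < b := lt_of_le_of_lt hn0 hcon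
  obtain ⟨hWi, hxWi⟩ := W_int hINT hG0 k θ h l hk hS
  have hlW : Integrable (fun x : E n => inner ℝ l x * W k θ h l x) ∧
      ∫ x : E n, inner ℝ l x * W k θ h l x = 0 := by
    have e : (fun x : E n => inner ℝ l x * W k θ h l x) =
        fun x => ∑ j, l j * (x j * W k θ h l x) := by
      funext x
      rw [PiLp.inner_apply, Finset.sum_mul]
      refine Finset.sum_congr rfl fun j _ => ?_
      simp only [RCLike.inner_apply, conj_trivial]
      ring
    rw [e]
    constructor
    · exact integrable_finsetSum _ fun j _ => (coord_int hINT hG0 k θ h l hk hS j).const_mul _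
    · rw [integral_finsetSum _ fun j _ => (coord_int hINT hG0 k θ h l hk hS j).const_mul _]
      refine Finset.sum_eq_zero fun j _ => ?_
      rw [integral_const_mul, hcen j, mul_zero]
  -- pointwise inequality
  have hpt : ∀ s : ℝ, 0 < s → s < 1 → ∀ x : E n,
      W k θ h l x * (1 + s * b) - s * (inner ℝ l x * W k θ h l x) ≤
        W k θ h l ((1 - s) • x + s • z) := by
    intro s hs0 hs1 x
    have h1 : ∀ i, G0 (k * (inner ℝ (θ i) ((1 - s) • x + s • z) - h i)) ≤
        G0 (k * (inner ℝ (θ i) x - h i)) := by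
      intro i
      have e1 : k * (inner ℝ (θ i) ((1 - s) • x + s • z) - h i) =
          (1 - s) • (k * (inner ℝ (θ i) x - h i)) + s • (k * (inner ℝ (θ i) z - h i)) := by
        rw [inner_add_right, inner_smul_right, inner_smul_right, smul_eq_mul, smul_eq_mul]
        ring
      rw [e1]
      have h2 := hconv.2 (Set.mem_univ (k * (inner ℝ (θ i) x - h i)))
        (Set.mem_univ (k * (inner ℝ (θ i) z - h i))) (by linarith : (0 : ℝ) ≤ 1 - s) hs0.le
        (by ring)
      refine h2.trans ?_
      have h3 : G0 (k * (inner ℝ (θ i) z - h i)) = 0 := by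
        unfold G0
        have h4 : inner ℝ (θ i) z - h i ≤ 0 := by
          have := hz i
          linarith
        rw [if_pos (mul_nonpos_of_nonneg_of_nonpos hk.le h4)]
      rw [h3, smul_zero, add_zero, smul_eq_mul]
      have h5 := hG0n (k * (inner ℝ (θ i) x - h i))
      nlinarith
    have h6 : ∑ i, G0 (k * (inner ℝ (θ i) ((1 - s) • x + s • z) - h i)) ≤
        ∑ i, G0 (k * (inner ℝ (θ i) x - h i)) := Finset.sum_le_sum fun i _ => h1 i
    have h7 : W k θ h l x * exp (s * (b - inner ℝ l x)) ≤ W k θ h l ((1 - s) • x + s • z) := by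
      rw [W_eq, W_eq, ← Real.exp_add]
      refine Real.exp_le_exp.mpr ?_
      rw [inner_add_right, inner_smul_right, inner_smul_right]
      have e2 : (inner ℝ l z : ℝ) = b := rfl
      rw [e2]
      linarith
    have h8 : 1 + s * (b - inner ℝ l x) ≤ exp (s * (b - inner ℝ l x)) := by
      have := Real.add_one_le_exp (s * (b - inner ℝ l x))
      linarith
    have h9 := mul_le_mul_of_nonneg_left h8 (W_pos k θ h l x).le
    have e3 : W k θ h l x * (1 + s * (b - inner ℝ l x)) =
        W k θ h l x * (1 + s * b) - s * (inner ℝ l x * W k θ h l x) := by ring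
    linarith
  have hJ : 0 < ∫ x, W k θ h l x := by
    rw [integral_pos_iff_support_of_nonneg (fun x => (W_pos k θ h l x).le) hWi]
    have : Function.support (W k θ h l) = Set.univ := by
      ext x
      simp [(W_pos k θ h l x).ne']
    rw [this]
    exact pos_iff_ne_zero.mpr (NeZero.ne _)
  have key : ∀ s : ℝ, 0 < s → s < 1 → (1 - s) ^ n * (1 + s * b) ≤ 1 := by
    intro s hs0 hs1
    have hR : (0 : ℝ) < 1 - s := by linarith
    set g : E n → ℝ := fun y => W k θ h l (y + s • z) with hg
    have hgi : Integrable g := hWi.comp_add_right (s • z)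
    have h1 : ∫ x, g ((1 - s) • x) = ((1 - s) ^ n)⁻¹ * ∫ x, W k θ h l x := by
      rw [Measure.integral_comp_smul, integral_add_right_eq_self (fun y => W k θ h l y) (s • z),
        finrank_euclideanSpace, Fintype.card_fin, smul_eq_mul, abs_of_pos (by positivity)]
    have h2 : ∫ x, (W k θ h l x * (1 + s * b) - s * (inner ℝ l x * W k θ h l x)) ≤
        ∫ x, g ((1 - s) • x) := by
      refine integral_mono ?_ (hgi.comp_smul hR.ne') (fun x => hpt s hs0 hs1 x)
      exact (hWi.mul_const _).sub (hlW.1.const_mul s)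
    rw [integral_sub (hWi.mul_const _) (hlW.1.const_mul s), integral_mul_const,
      integral_const_mul, hlW.2, mul_zero, sub_zero, h1] at h2
    have h3 : (0 : ℝ) < (1 - s) ^ n := pow_pos hR n
    have h4 : (1 + s * b) ≤ ((1 - s) ^ n)⁻¹ := by
      have h5 : (1 + s * b) * (∫ x, W k θ h l x) ≤ ((1 - s) ^ n)⁻¹ * ∫ x, W k θ h l x := by
        rw [mul_comm (1 + s * b)]; exact h2
      exact le_of_mul_le_mul_right h5 hJ
    calc (1 - s) ^ n * (1 + s * b) ≤ (1 - s) ^ n * ((1 - s) ^ n)⁻¹ :=
          mul_le_mul_of_nonneg_left h4 h3.le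
      _ = 1 := mul_inv_cancel₀ h3.ne'
  have hden : 0 < 2 * (n * b + b + 1) := by positivity
  set s : ℝ := (b - n) / (2 * (n * b + b + 1)) with hs
  have hs0 : 0 < s := div_pos (by linarith) hden
  have hs1 : s < 1 := by
    rw [hs, div_lt_one hden]
    nlinarith
  have h1 := key s hs0 hs1
  have h2 : 1 + (n : ℝ) * (-s) ≤ (1 + -s) ^ n := one_add_mul_le_pow (by linarith) n
  have h3 : (1 + (n : ℝ) * (-s)) * (1 + s * b) ≤ (1 - s) ^ n * (1 + s * b) := by
    refine mul_le_mul_of_nonneg_right ?_ (by positivity)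
    rw [sub_eq_add_neg]; exact h2
  have h4 : s * (b - n - n * s * b) ≤ 0 := by
    have e : (1 + (n : ℝ) * (-s)) * (1 + s * b) = 1 + s * (b - n - n * s * b) := by ring
    linarith
  have h5 : n * s * b ≤ (b - n) / 2 := by
    have e : n * s * b = (n * b) * (b - n) / (2 * (n * b + b + 1)) := by
      rw [hs]; ring
    rw [e, div_le_div_iff₀ hden (by norm_num)]
    have h6 : (n * b) * (b - n) ≤ (n * b + b + 1) * (b - n) :=
      mul_le_mul_of_nonneg_right (by linarith) (by linarith)
    linarith
  have h6 : 0 < b - n - n * s * b := by linarith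
  have h7 := mul_pos hs0 h6
  linarith

end Pool.Agent.Work.LPBM.helper83
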