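import Pool.Agent.Work.MP_b5407d_lp.Interface

/-! Block VD: smoothness and derivatives of the soft potential (helper83). -/

set_option autoImplicit false
open MeasureTheory Real Filter Topology
open scoped ContDiff

namespace Pool.Agent.Work.LPBM.helper83

theorem inner_single' {n : ℕ} (v : E n) (j : Fin n) :
    inner ℝ v (EuclideanSpace.single j (1 : ℝ)) = v j := by
  rw [EuclideanSpace.inner_single_right]
  simp

/-- derivative of a wall -/
theorem hasFDerivAt_wall {n : ℕ} {g g' : ℝ → ℝ} (hg : ∀ s, HasDerivAt g (g' s) s) (k c : ℝ)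
    (v x : E n) :
    HasFDerivAt (fun y : E n => g (k * (inner ℝ v y - c)))
      (g' (k * (inner ℝ v x - c)) • (k • innerSL ℝ v)) x := by
  have h1 : HasFDerivAt (fun y : E n => inner ℝ v y) (innerSL ℝ v) x :=
    (innerSL ℝ v).hasFDerivAt
  have h2 : HasFDerivAt (fun y : E n => k * (inner ℝ v y - c)) (k • innerSL ℝ v) x :=
    (h1.sub_const c).const_mul k
  exact (hg (k * (inner ℝ v x - c))).comp_hasFDerivAt x h2

theorem stmt_VD (hSW0 : Stmt_SW0) : Stmt_VD := by
  obtain ⟨hd0, hd1, hc2, hG0, hG1, -⟩ := hSW0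
  intro n ι _ k θ h l
  have hlin : ∀ x : E n, HasFDerivAt (fun y : E n => inner ℝ l y) (innerSL ℝ l) x := fun x =>
    (innerSL ℝ l).hasFDerivAt
  have hV : ∀ x : E n, HasFDerivAt (Vpot k θ h l)
      ((∑ i, G1 (k * (inner ℝ (θ i) x - h i)) • (k • innerSL ℝ (θ i))) - innerSL ℝ l) x := by
    intro x
    have h1 : HasFDerivAt (fun y : E n => ∑ i, G0 (k * (inner ℝ (θ i) y - h i)))
        (∑ i, G1 (k * (inner ℝ (θ i) x - h i)) • (k • innerSL ℝ (θ i))) x :=
      HasFDerivAt.fun_sum fun i _ => hasFDerivAt_wall hd0 k (h i) (θ i) x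
    exact h1.sub (hlin x)
  have hp : ∀ j (x : E n), pd j (Vpot k θ h l) x =
      ∑ i, k * G1 (k * (inner ℝ (θ i) x - h i)) * θ i j - l j := by
    intro j x
    unfold pd
    rw [(hV x).fderiv]
    simp only [_root_.sub_apply, _root_.sum_apply,
      _root_.smul_apply, smul_eq_mul, innerSL_apply_apply]
    simp only [inner_single']
    congr 1
    refine Finset.sum_congr rfl fun i _ => ?_
    ring
  refine ⟨?_, hp, ?_⟩
  · have hi : ∀ v : E n, ContDiff ℝ 2 (fun y : E n => (inner ℝ v y : ℝ)) := fun v =>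
      (innerSL ℝ v).contDiff
    have h1 : ContDiff ℝ 2 (fun y : E n => ∑ i, G0 (k * (inner ℝ (θ i) y - h i))) := by
      refine ContDiff.sum fun i _ => ?_
      exact hG0.comp (contDiff_const.mul ((hi (θ i)).sub contDiff_const))
    exact h1.sub (hi l)
  · intro i' j x
    have h1 : pd j (Vpot k θ h l) =
        fun x => ∑ i, k * G1 (k * (inner ℝ (θ i) x - h i)) * θ i j - l j := funext (hp j)
    rw [h1]
    have h2 : HasFDerivAt (fun x : E n => ∑ i, k * G1 (k * (inner ℝ (θ i) x - h i)) * θ i j - l j)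
        (∑ i, (θ i j) • (k • (G2 (k * (inner ℝ (θ i) x - h i)) • (k • innerSL ℝ (θ i))))) x := by
      refine HasFDerivAt.sub_const _ ?_
      refine HasFDerivAt.fun_sum fun i _ => ?_
      exact ((hasFDerivAt_wall hd1 k (h i) (θ i) x).const_mul k).mul_const (θ i j)
    unfold pd
    rw [h2.fderiv]
    simp only [_root_.sum_apply,
      _root_.smul_apply, smul_eq_mul, innerSL_apply_apply]
    simp only [inner_single']
    refine Finset.sum_congr rfl fun i _ => ?_
    ring

end Pool.Agent.Work.LPBM.helper83
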